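import Pool.Agent.H741.EL.Stm

/-!
# Project EL: the first order expansion of the perimeter (`S_PCOST`)
-/

set_option autoImplicit false
open MeasureTheory Metric Set Filter Topology

namespace Pool.Agent.H379.EL
open Pool.Agent.Y508
open Pool.Agent.H741.EL

theorem int_ip (w : E2) : ∫ θ in (0 : ℝ)..(2 * Real.pi), ip w θ = 0 := by
  unfold ip
  rw [intervalIntegral.integral_add, intervalIntegral.integral_const_mul,
    intervalIntegral.integral_const_mul, integral_cos, integral_sin]
  · simp
  · exact (continuous_const.mul Real.continuous_cos).intervalIntegrable _ _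
  · exact (continuous_const.mul Real.continuous_sin).intervalIntegrable _ _

theorem t_PCOST : S_PCOST := by
  intro p K w hK hp
  have hg : ∀ θ, 0 ≤ hs K θ - ip p θ := fun θ => sub_nonneg.2 (le_hs hK.cpt hp θ)
  have hch := cont_hs hK.cpt
  have hcp := cont_ip p
  have hcw := cont_ip w
  -- the quotient
  have hq : ∀ δ : ℝ, 0 < δ →
      ((∫ θ in (0 : ℝ)..(2 * Real.pi), max (hs K θ - δ * ip w θ) (ip p θ)) - W K) / δ =
        ∫ θ in (0 : ℝ)..(2 * Real.pi), max (ip w θ - (hs K θ - ip p θ) / δ) 0 := by
    intro δ hδ
    have e1 : ∀ θ, max (hs K θ - δ * ip w θ) (ip p θ) =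
        δ * max (ip w θ - (hs K θ - ip p θ) / δ) 0 + (hs K θ - δ * ip w θ) := by
      intro θ
      rw [mul_max_of_nonneg _ _ hδ.le, mul_zero, mul_sub, mul_div_cancel₀ _ hδ.ne',
        ← max_add_add_right]
      rw [max_comm]
      congr 1 <;> ring
    have hc1 : Continuous fun θ => max (ip w θ - (hs K θ - ip p θ) / δ) 0 :=
      (hcw.sub ((hch.sub hcp).div_const δ)).max continuous_const
    have e2 : ∫ θ in (0 : ℝ)..(2 * Real.pi), max (hs K θ - δ * ip w θ) (ip p θ) =
        δ * (∫ θ in (0 : ℝ)..(2 * Real.pi), max (ip w θ - (hs K θ - ip p θ) / δ) 0) + W K := by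
      have i1 : IntervalIntegrable (fun θ => δ * max (ip w θ - (hs K θ - ip p θ) / δ) 0) volume 0
          (2 * Real.pi) := (continuous_const.mul hc1).intervalIntegrable _ _
      have i2 : IntervalIntegrable (fun θ => δ * ip w θ) volume 0 (2 * Real.pi) :=
        (continuous_const.mul hcw).intervalIntegrable _ _
      have i3 : IntervalIntegrable (fun θ => hs K θ) volume 0 (2 * Real.pi) :=
        hch.intervalIntegrable _ _
      have i4 : IntervalIntegrable (fun θ => hs K θ - δ * ip w θ) volume 0 (2 * Real.pi) := i3.sub i2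
      rw [intervalIntegral.integral_congr (g := fun θ =>
        δ * max (ip w θ - (hs K θ - ip p θ) / δ) 0 + (hs K θ - δ * ip w θ)) (fun θ _ => e1 θ),
        intervalIntegral.integral_add i1 i4, intervalIntegral.integral_sub i3 i2,
        intervalIntegral.integral_const_mul, intervalIntegral.integral_const_mul, int_ip, mul_zero,
        sub_zero]
      rfl
    rw [e2, add_sub_cancel_right, mul_div_cancel_left₀ _ hδ.ne']
  have hT : Tendsto (fun δ : ℝ => ∫ θ in (0 : ℝ)..(2 * Real.pi),
      max (ip w θ - (hs K θ - ip p θ) / δ) 0) (𝓝[>] 0)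
      (𝓝 (∫ θ in (0 : ℝ)..(2 * Real.pi), if hs K θ = ip p θ then max (ip w θ) 0 else 0)) := by
    apply intervalIntegral.tendsto_integral_filter_of_dominated_convergence (fun _ => ‖w‖)
    · refine Filter.Eventually.of_forall fun δ => ?_
      exact ((hcw.sub ((hch.sub hcp).div_const δ)).max continuous_const).aestronglyMeasurable
    · filter_upwards [self_mem_nhdsWithin] with δ hδ
      refine Filter.Eventually.of_forall fun θ _ => ?_
      have hδ' : (0 : ℝ) < δ := hδ
      rw [Real.norm_eq_abs, abs_of_nonneg (le_max_right _ _)]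
      apply max_le _ (norm_nonneg _)
      have h1 : 0 ≤ (hs K θ - ip p θ) / δ := div_nonneg (hg θ) hδ'.le
      have h2 := (le_abs_self _).trans (abs_ip_le w θ)
      linarith
    · exact continuous_const.intervalIntegrable _ _
    · refine Filter.Eventually.of_forall fun θ _ => ?_
      by_cases h : hs K θ = ip p θ
      · rw [if_pos h]
        have : (fun δ : ℝ => max (ip w θ - (hs K θ - ip p θ) / δ) 0) =
            fun _ => max (ip w θ) 0 := by
          funext δ
          rw [h, sub_self, zero_div, sub_zero]
        rw [this]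
        exact tendsto_const_nhds
      · rw [if_neg h]
        have hpos : 0 < hs K θ - ip p θ := lt_of_le_of_ne (hg θ) (Ne.symm (sub_ne_zero.2 h))
        have hev : ∀ᶠ δ : ℝ in 𝓝[>] 0, max (ip w θ - (hs K θ - ip p θ) / δ) 0 = 0 := by
          have h3 : 0 < (hs K θ - ip p θ) / (|ip w θ| + 1) := by positivity
          filter_upwards [Ioo_mem_nhdsGT h3] with δ hδ
          apply max_eq_right
          rw [sub_nonpos, le_div_iff₀ hδ.1]
          have h4 := hδ.2
          rw [lt_div_iff₀ (by positivity)] at h4
          have h5 : ip w θ ≤ |ip w θ| := le_abs_self _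
          nlinarith [hδ.1]
        exact tendsto_const_nhds.congr' (hev.mono fun δ h => h.symm)
  refine hT.congr' ?_
  filter_upwards [self_mem_nhdsWithin] with δ hδ
  exact (hq δ hδ).symm

end Pool.Agent.H379.EL
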